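import Pool.Agent.DV97.Main

/-!
# Maps with coefficients algebraic over a discretely valued field

Let `K` be an algebraically closed field with a nontrivial non-archimedean absolute value and let `F` be a
subfield of `K` on which the absolute value is discrete or trivial.  A rational map of degree at least two
whose coefficients are algebraic over `F` has only finitely many cycles of indifferent Fatou components
which are not disks.  The residue characteristic is arbitrary.
-/

open Polynomial

namespace Pool.Agent.Results.MP_448b21_nt.AlgebraicMaps

open Pool.Agent.FIC FS16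

theorem result (K : Type*) [NontriviallyNormedField K] [IsUltrametricDist K] [IsAlgClosed K]
    (F : Subfield K) (c : ℝ) (hc : 1 < c) (hF : ∀ x ∈ F, x ≠ 0 → ∃ n : ℤ, ‖x‖ = c ^ n)
    (f : RatMap K) (hf : 2 ≤ f.degree) (hP : ∀ i, IsAlgebraic F (f.P.coeff i))
    (hQ : ∀ i, IsAlgebraic F (f.Q.coeff i)) : (multiCycles f).Finite :=
  DV97.finite_of_disc hf ⟨c, hc, hF⟩ hP hQ

end Pool.Agent.Results.MP_448b21_nt.AlgebraicMaps
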