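import Pool.Agent.FS16.BFinal

/-!
# Residue characteristic zero: finitely many cycles

Let `K` be an algebraically closed field, complete for a nontrivial non-archimedean absolute value of residue
characteristic zero.  A rational map of degree `d ≥ 2` over `K` has at most `4 d - 4` cycles of indifferent Fatou
components which are not disks.
-/

namespace Pool.Agent.Results.MP_448b21_nt.ResidueZero

open Pool.Agent.FIC FS16

theorem result (K : Type*) [NontriviallyNormedField K] [IsUltrametricDist K] [CompleteSpace K]
    [IsAlgClosed K] (hK : ∀ n : ℕ, n ≠ 0 → ‖(n : K)‖ = 1) (f : RatMap K) (hf : 2 ≤ f.degree) :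
    (multiCycles f).Finite ∧ (multiCycles f).ncard ≤ 4 * f.degree - 4 :=
  multi_bound hK f hf

end Pool.Agent.Results.MP_448b21_nt.ResidueZero
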