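import Pool.Agent.FS31.Both

/-!
# The uniform bound

Let `K` be an algebraically closed field, complete for a nontrivial non-archimedean absolute value.  If all
rational maps of degree at least two over `K` have only finitely many cycles of indifferent Fatou components
which are not disks, then every rational map of degree `d ≥ 2` over `K` has at most `4 d - 4` such cycles.
-/

namespace Pool.Agent.Results.MP_448b21_nt.UniformBound

open Pool.Agent.FIC FS16 FS31

theorem result (K : Type*) [NontriviallyNormedField K] [IsUltrametricDist K] [CompleteSpace K]
    [IsAlgClosed K] (hfin : ∀ f : RatMap K, 2 ≤ f.degree → (multiCycles f).Finite) (f : RatMap K)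
    (hf : 2 ≤ f.degree) : (multiCycles f).ncard ≤ 4 * f.degree - 4 := by
  rcases residue_char K with hK | ⟨p, hp, hp1⟩
  · exact (multi_bound hK f hf).2
  · obtain ⟨g, hg, hinf⟩ := wild hp hp1 (d := 70 * p + 2) le_rfl
    exact absurd (hfin g (by rw [hg]; omega)) hinf

end Pool.Agent.Results.MP_448b21_nt.UniformBound
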