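import Pool.Agent.FS31.Both

/-!
# Infinitely many cycles of indifferent Fatou components which are not disks

For every prime `p`, every algebraically closed field `K`, complete for a nontrivial non-archimedean
absolute value with residue characteristic `p`, and every `d ≥ 70 p + 2` there is a rational map of
degree `d` over `K` with infinitely many distinct cycles of indifferent Fatou components that are not
disks.
-/

namespace Pool.Agent.Results.MP_448b21_nt.WildCycles

open Pool.Agent.FIC FS16 FS31

theorem result (p : ℕ) (hp : p.Prime) (K : Type*) [NontriviallyNormedField K]
    [IsUltrametricDist K] [CompleteSpace K] [IsAlgClosed K] (hK : ‖(p : K)‖ < 1) (d : ℕ)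
    (hd : 70 * p + 2 ≤ d) : ∃ f : RatMap K, f.degree = d ∧ (multiCycles f).Infinite :=
  wild hp hK hd

end Pool.Agent.Results.MP_448b21_nt.WildCycles
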